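import Pool.Agent.W429.TCI.Fin
set_option autoImplicit false

/-! The free alternative algebra on countably many generators, over any field in which `2` and `3` are not zero,
has an ideal with zero product, stable under all derivations, and not inside the associative center. -/

namespace Pool.Agent.Results.MP_273d7a_al.TrivialIdeal
open Pool.Agent.Helper805.Nuc.Free

theorem result (F : Type) [Field F] (h2 : (2 : F) ≠ 0) (h3 : (3 : F) ≠ 0) :
    ∃ I : Submodule F (FreeAlt F ℕ),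
      (∀ a : FreeAlt F ℕ, ∀ x ∈ I, a * x ∈ I ∧ x * a ∈ I) ∧
      (∀ u ∈ I, ∀ v ∈ I, u * v = 0) ∧
      (∀ δ : FreeAlt F ℕ →ₗ[F] FreeAlt F ℕ, (∀ a b, δ (a * b) = δ a * b + a * δ b) → ∀ x ∈ I, δ x ∈ I) ∧
      ¬ ∀ n ∈ I, ∀ a b : FreeAlt F ℕ,
        (n * a) * b = n * (a * b) ∧ (a * n) * b = a * (n * b) ∧ (a * b) * n = a * (b * n) := by
  obtain ⟨I, h1, hI2, hI3, hI4⟩ := Pool.Agent.W429.TCI.fin F h2 h3
  refine ⟨I, ?_, hI2, ?_, ?_⟩
  · intro a x hx
    exact h1 a x hx
  · intro δ hδ x hx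
    exact hI3 δ hδ x hx
  · intro hn
    apply hI4
    intro n hnI
    intro a b
    have H := hn n hnI a b
    refine ⟨?_, ?_, ?_⟩
    all_goals
      unfold Pool.Agent.Helper805.Nuc.Tens.as
      rw [sub_eq_zero]
    · exact H.1
    · exact H.2.1
    · exact H.2.2

end Pool.Agent.Results.MP_273d7a_al.TrivialIdeal
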